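import Pool.Agent.K1H2.UB.Stm

/-!
# Piece FAR of helper2's project UB
-/

set_option autoImplicit false

open scoped ENNReal
open Finset Pool.Agent.K1H53.BI Pool.Agent.K1H2.UB

namespace Pool.Agent.K1H27.UB

theorem len_eq (w : Fin 3 → ℝ) : len w = ‖(WithLp.toLp 2 w : EuclideanSpace ℝ (Fin 3))‖ := by
  unfold len q
  rw [EuclideanSpace.norm_eq]
  congr 1
  refine Finset.sum_congr rfl fun i _ => ?_
  simp

theorem len_nonneg (w : Fin 3 → ℝ) : 0 ≤ len w := Real.sqrt_nonneg _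

theorem len_add (v w : Fin 3 → ℝ) : len (v + w) ≤ len v + len w := by
  rw [len_eq, len_eq, len_eq, WithLp.toLp_add]
  exact norm_add_le _ _

theorem len_neg (w : Fin 3 → ℝ) : len (-w) = len w := by
  rw [len_eq, len_eq, WithLp.toLp_neg, norm_neg]

theorem len_sub_comm (v w : Fin 3 → ℝ) : len (v - w) = len (w - v) := by
  rw [← len_neg, neg_sub]

theorem len_rd (e : Fin 3 × Bool) : len (rd e) = 1 := by
  unfold len q rd
  have : ∑ i, (Pi.single e.1 (if e.2 = true then (1:ℝ) else -1) : Fin 3 → ℝ) i ^ 2 = 1 := by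
    rw [Finset.sum_eq_single e.1]
    · simp only [Pi.single_eq_same]; split_ifs <;> norm_num
    · intro b _ hb
      rw [Pi.single_eq_of_ne hb]; norm_num
    · intro h; exact absurd (Finset.mem_univ _) h
  rw [this, Real.sqrt_one]

theorem nrm_eq (x : V) : nrm x = len (rv x) := by
  unfold nrm len q rv nsq
  congr 1
  push_cast
  refine Finset.sum_congr rfl fun i _ => ?_
  rw [Nat.cast_natAbs]
  push_cast
  rw [sq_abs]

theorem rv_sub (x z : V) : rv (x - z) = rv x - rv z := by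
  funext i; simp [rv]

theorem rv_dir (x : V) (e : Fin 3 × Bool) : rv (x + dir e) = rv x + rd e := by
  funext i
  simp only [rv, dir, rd, Pi.add_apply, Int.cast_add]
  congr 1
  by_cases h : i = e.1
  · subst h
    simp only [Pi.single_eq_same]
    split_ifs <;> norm_num
  · simp [Pi.single_eq_of_ne h]

theorem nrm_dir (x : V) (e : Fin 3 × Bool) : |nrm (x + dir e) - nrm x| ≤ 1 := by
  rw [nrm_eq, nrm_eq, rv_dir, abs_le]
  constructor
  · have h := len_add (rv x + rd e) (-rd e)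
    rw [add_neg_cancel_right, len_neg, len_rd] at h
    linarith
  · have h := len_add (rv x) (rd e)
    rw [len_rd] at h
    linarith

theorem t_FAR : S_FAR := by
  intro hG hC hR hT C k c1 hC1 hk hc1
  obtain ⟨A, hA1, hA⟩ := hC C k hC1 hk
  obtain ⟨c, D, hc, hD1, hR⟩ := hR A c1 hA1 hc1
  obtain ⟨B, hB1, hT⟩ := hT
  set C3 : ℝ := 32001 * B + 9 * A with hC3
  set r : ℝ := Real.sqrt (c / 3) with hr
  have hr0 : 0 < r := Real.sqrt_pos.2 (by positivity)
  have hr2 : r ^ 2 = c / 3 := Real.sq_sqrt (by positivity)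
  refine ⟨A + D + 10 + 2 / c1 + 2 * C3 / r + 768 * A ^ 3 / c, ?_, ?_⟩
  · have h1 : 0 ≤ 2 / c1 := by positivity
    have h2 : 0 ≤ 2 * C3 / r := by positivity
    have h3 : 0 ≤ 768 * A ^ 3 / c := by positivity
    linarith
  intro N z hreg x hxz hxN hfar hpos e'
  have p1 : 0 ≤ 2 / c1 := by positivity
  have p2 : 0 ≤ 2 * C3 / r := by positivity
  have p3 : 0 ≤ 768 * A ^ 3 / c := by positivity
  have hbig := hreg.big
  set δ : ℝ := dl N z with hδ
  have hδA : A ≤ δ := by linarith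
  have hδD : D ≤ δ := by linarith
  have hδ10 : 10 ≤ δ := by linarith
  have hδc : 2 / c1 ≤ δ := by linarith
  have hδr : 2 * C3 / r ≤ δ := by linarith
  have hδ0 : 0 < δ := by linarith
  have reg10 : Reg 10 N z := ⟨hreg.far, hδ10⟩
  have regA : Reg A N z := ⟨hreg.far, hδA⟩
  obtain ⟨g1, g2, g3, g4, -, g6, -⟩ := hG N z reg10
  set κ : ℝ := kap N z with hκ
  set W : Fin 3 → ℝ := rv x - rv z with hW
  set W' : Fin 3 → ℝ := rv x - zs N z with hW'
  set s : ℝ := nrm (x - z) with hs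
  have hsW : len W = s := by rw [hs, nrm_eq, rv_sub]
  have hs2 : 2 ≤ s := by
    have : 2 ≤ c1 * δ := by
      have := mul_le_mul_of_nonneg_left hδc hc1.le
      rwa [mul_div_cancel₀ _ hc1.ne'] at this
    linarith
  have hs0 : 0 < s := by linarith
  have hxN1 : len (rv x) ≤ N + 1 := by rw [← nrm_eq]; linarith
  obtain ⟨g7, g8⟩ := g6 (rv x) hxN1
  set s' : ℝ := len W' with hs'
  have hs'2 : 2 ≤ s' := by linarith
  have hs'0 : 0 < s' := by linarith
  have hss' : s ≤ 20 * s' := by rw [← hsW]; exact g8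
  -- the value at x
  obtain ⟨a1, a2, a3⟩ := hA N z regA x hxz (by linarith)
  have hvv : vv N z (rv x) = 1 / len W - κ / len W' := rfl
  have hlow : -(A / len W ^ 3) ≤ 1 / len W - κ / len W' := by
    rw [← hvv, hsW]
    have := (abs_le.1 a1).2
    linarith
  have hWW : W - W' = zs N z - rv z := by rw [hW, hW']; abel
  have hlenWW : len (W - W') = len (rv z - zs N z) := by rw [hWW, len_sub_comm]
  have hgrv := hR W W' κ δ g1 g2 hδD (by rw [hlenWW]; exact g3) (by rw [hlenWW]; exact g4)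
    (by rw [hsW]; exact hfar) (by rw [hsW]; exact hss') hlow
  -- choose i
  have hi : ∃ i : Fin 3, c / 3 * δ ^ 2 / s ^ 6 ≤ (κ * W' i / s' ^ 3 - W i / s ^ 3) ^ 2 := by
    by_contra hcon
    push Not at hcon
    have h1 : ∑ i : Fin 3, (κ * W' i / s' ^ 3 - W i / s ^ 3) ^ 2 <
        ∑ i : Fin 3, c / 3 * δ ^ 2 / s ^ 6 :=
      Finset.sum_lt_sum_of_nonempty Finset.univ_nonempty fun i _ => hcon i
    rw [Finset.sum_const, Finset.card_univ, Fintype.card_fin] at h1
    rw [hsW] at hgrv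
    have h2 : (3 : ℕ) • (c / 3 * δ ^ 2 / s ^ 6) = c * δ ^ 2 / s ^ 6 := by
      rw [nsmul_eq_mul]; push_cast; ring
    rw [h2] at h1
    exact absurd hgrv (not_le.2 h1)
  obtain ⟨i, hi⟩ := hi
  set G : ℝ := κ * W' i / s' ^ 3 - W i / s ^ 3 with hGd
  have hGabs : r * δ / s ^ 3 ≤ |G| := by
    apply le_of_sq_le_sq _ (abs_nonneg _)
    rw [sq_abs]
    refine le_trans (le_of_eq ?_) hi
    rw [div_pow, mul_pow, hr2]
    ring
  set e : Fin 3 × Bool := (i, true) with he
  refine ⟨e, ?_⟩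
  -- Taylor
  have t1 := hT W e (by rw [hsW]; exact hs2)
  have t2 := hT W' e hs'2
  have he1 : e.1 = i := rfl
  have he2 : (if e.2 = true then (1:ℝ) else -1) = 1 := rfl
  rw [he1, he2, hsW, one_mul] at t1
  rw [he1, he2, one_mul] at t2
  have hvve : vv N z (rv (x + dir e)) = 1 / len (W + rd e) - κ / len (W' + rd e) := by
    unfold vv
    rw [rv_dir, hW, hW', add_sub_right_comm, add_sub_right_comm]
  have hdiff : |vv N z (rv (x + dir e)) - vv N z (rv x) - G| ≤ B / s ^ 3 + 4 * (B / s' ^ 3) := by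
    have h1 : vv N z (rv (x + dir e)) - vv N z (rv x) - G =
        (1 / len (W + rd e) - 1 / s + W i / s ^ 3) -
          κ * (1 / len (W' + rd e) - 1 / s' + W' i / s' ^ 3) := by
      rw [hvve, hvv, hsW, hGd]
      ring
    rw [h1]
    refine (abs_sub _ _).trans ?_
    refine add_le_add t1 ?_
    rw [abs_mul, abs_of_nonneg (by linarith : (0:ℝ) ≤ κ)]
    exact mul_le_mul g2 t2 (abs_nonneg _) (by norm_num)
  have hs3 : 1 / s' ^ 3 ≤ 8000 / s ^ 3 := by
    rw [div_le_div_iff₀ (by positivity) (by positivity), one_mul]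
    calc s ^ 3 ≤ (20 * s') ^ 3 := pow_le_pow_left₀ hs0.le hss' 3
      _ = 8000 * s' ^ 3 := by ring
  have hdiff2 : |vv N z (rv (x + dir e)) - vv N z (rv x) - G| ≤ 32001 * B / s ^ 3 := by
    refine hdiff.trans ?_
    have h1 : B / s' ^ 3 ≤ B * (8000 / s ^ 3) := by
      have := mul_le_mul_of_nonneg_left hs3 (by linarith : (0:ℝ) ≤ B)
      rwa [mul_one_div] at this
    calc B / s ^ 3 + 4 * (B / s' ^ 3) ≤ B / s ^ 3 + 4 * (B * (8000 / s ^ 3)) := by linarith
      _ = 32001 * B / s ^ 3 := by ring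
  -- neighbours
  have hne : ∀ e'' : Fin 3 × Bool, s / 2 ≤ nrm (x + dir e'' - z) := by
    intro e''
    have h1 : x + dir e'' - z = (x - z) + dir e'' := by abel
    rw [h1]
    have := (abs_le.1 (nrm_dir (x - z) e'')).1
    have hh : nrm (x - z) = s := rfl
    linarith
  have hnz : ∀ e'' : Fin 3 × Bool, x + dir e'' ≠ z := by
    intro e'' h
    have h1 := hne e''
    rw [h, sub_self] at h1
    have h2 : nrm (0 : V) = 0 := by simp [nrm, nsq]
    rw [h2] at h1
    linarith
  have hN1 : ∀ e'' : Fin 3 × Bool, nrm (x + dir e'') ≤ N + 1 := by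
    intro e''
    have := (abs_le.1 (nrm_dir x e'')).2
    linarith
  obtain ⟨b1, -, -⟩ := hA N z regA (x + dir e) (hnz e) (hN1 e)
  have hcube : ∀ e'' : Fin 3 × Bool, 1 / nrm (x + dir e'' - z) ^ 3 ≤ 8 / s ^ 3 := by
    intro e''
    have h0 : 0 < nrm (x + dir e'' - z) := by linarith [hne e'']
    rw [div_le_div_iff₀ (by positivity) (by positivity), one_mul]
    calc s ^ 3 ≤ (2 * nrm (x + dir e'' - z)) ^ 3 :=
          pow_le_pow_left₀ hs0.le (by linarith [hne e'']) 3
      _ = 8 * nrm (x + dir e'' - z) ^ 3 := by ring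
  have b2 : |UU k N z (x + dir e) - vv N z (rv (x + dir e))| ≤ 8 * A / s ^ 3 := by
    refine b1.trans ?_
    have := mul_le_mul_of_nonneg_left (hcube e) (by linarith : (0:ℝ) ≤ A)
    rw [mul_one_div] at this
    calc A / nrm (x + dir e - z) ^ 3 ≤ A * (8 / s ^ 3) := this
      _ = 8 * A / s ^ 3 := by ring
  set d : ℝ := UU k N z (x + dir e) - UU k N z x with hd
  have hdG : |d - G| ≤ C3 / s ^ 3 := by
    have h1 : d - G = (UU k N z (x + dir e) - vv N z (rv (x + dir e))) +
        (vv N z (rv (x + dir e)) - vv N z (rv x) - G) - (UU k N z x - vv N z (rv x)) := by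
      rw [hd]; ring
    rw [h1]
    refine (abs_sub _ _).trans ?_
    refine (add_le_add (abs_add_le _ _) le_rfl).trans ?_
    have a1' : |UU k N z x - vv N z (rv x)| ≤ A / s ^ 3 := a1
    calc |UU k N z (x + dir e) - vv N z (rv (x + dir e))| +
          |vv N z (rv (x + dir e)) - vv N z (rv x) - G| + |UU k N z x - vv N z (rv x)|
        ≤ 8 * A / s ^ 3 + 32001 * B / s ^ 3 + A / s ^ 3 := by linarith
      _ = C3 / s ^ 3 := by rw [hC3]; ring
  have hC3δ : C3 ≤ r * δ / 2 := by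
    rw [div_le_iff₀ hr0] at hδr
    linarith
  have hdabs : r * δ / (2 * s ^ 3) ≤ |d| := by
    have h1 : |G| ≤ |d| + |d - G| := by
      have : G = d - (d - G) := by ring
      calc |G| = |d - (d - G)| := by rw [← this]
        _ ≤ |d| + |d - G| := abs_sub _ _
    have h2 : C3 / s ^ 3 ≤ r * δ / 2 / s ^ 3 := div_le_div_of_nonneg_right hC3δ (by positivity)
    have h3 : r * δ / (2 * s ^ 3) = r * δ / s ^ 3 - r * δ / 2 / s ^ 3 := by
      field_simp
      ring
    rw [h3]
    linarith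
  have hdsq : c / 12 * δ ^ 2 / s ^ 6 ≤ d ^ 2 := by
    have h1 : (r * δ / (2 * s ^ 3)) ^ 2 ≤ |d| ^ 2 := pow_le_pow_left₀ (by positivity) hdabs 2
    rw [sq_abs] at h1
    refine le_trans (le_of_eq ?_) h1
    rw [div_pow, mul_pow, mul_pow, hr2]
    field_simp
    ring
  -- the cube
  obtain ⟨-, u2, -⟩ := hA N z regA (x + dir e') (hnz e') (hN1 e')
  have hsq' : 1 / nrm (x + dir e' - z) ^ 2 ≤ 4 / s ^ 2 := by
    have h0 : 0 < nrm (x + dir e' - z) := by linarith [hne e']
    rw [div_le_div_iff₀ (by positivity) (by positivity), one_mul]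
    calc s ^ 2 ≤ (2 * nrm (x + dir e' - z)) ^ 2 :=
          pow_le_pow_left₀ hs0.le (by linarith [hne e']) 2
      _ = 4 * nrm (x + dir e' - z) ^ 2 := by ring
  have u3 : UU k N z (x + dir e') ≤ 4 * A * δ / s ^ 2 := by
    refine u2.trans ?_
    have := mul_le_mul_of_nonneg_left hsq' (by positivity : (0:ℝ) ≤ A * δ)
    rw [mul_one_div] at this
    calc A * δ / nrm (x + dir e' - z) ^ 2 ≤ A * δ * (4 / s ^ 2) := this
      _ = 4 * A * δ / s ^ 2 := by ring
  have u4 : UU k N z (x + dir e') ^ 3 ≤ 64 * A ^ 3 * δ ^ 3 / s ^ 6 := by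
    rcases le_or_gt 0 (UU k N z (x + dir e')) with h | h
    · calc UU k N z (x + dir e') ^ 3 ≤ (4 * A * δ / s ^ 2) ^ 3 := pow_le_pow_left₀ h u3 3
        _ = 64 * A ^ 3 * δ ^ 3 / s ^ 6 := by
          rw [div_pow]; ring
    · have h1 : UU k N z (x + dir e') ^ 3 ≤ 0 := by
        have : UU k N z (x + dir e') ^ 3 = -((-UU k N z (x + dir e')) ^ 3) := by ring
        rw [this]
        have h2 : 0 ≤ (-UU k N z (x + dir e')) ^ 3 := by
          apply pow_nonneg; linarith
        linarith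
      exact h1.trans (by positivity)
  refine u4.trans ?_
  calc 64 * A ^ 3 * δ ^ 3 / s ^ 6 = 768 * A ^ 3 / c * δ * (c / 12 * δ ^ 2 / s ^ 6) := by
        field_simp
        ring
    _ ≤ 768 * A ^ 3 / c * δ * d ^ 2 := mul_le_mul_of_nonneg_left hdsq (by positivity)
    _ ≤ (A + D + 10 + 2 / c1 + 2 * C3 / r + 768 * A ^ 3 / c) * δ * d ^ 2 := by
        apply mul_le_mul_of_nonneg_right _ (sq_nonneg _)
        apply mul_le_mul_of_nonneg_right _ hδ0.le
        linarith

end Pool.Agent.K1H27.UB
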